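import Mathlib

/-! Asymmetric supersaturation fails for the pair `x - 2y = -2` and `x - 2y = 0`. -/

namespace Pool.Agent.Results.MP_9bc523_co.NoSupersat

open Matrix Filter

/-- `x` is a solution of `A x = c` in positive integers with pairwise distinct entries. -/
def Sol {l k : ℕ} (A : Matrix (Fin l) (Fin k) ℤ) (c : Fin l → ℤ) (x : Fin k → ℕ) : Prop :=
  (∀ j, 1 ≤ x j) ∧ Function.Injective x ∧ A *ᵥ (fun j => (x j : ℤ)) = c

def A0 : Matrix (Fin 1) (Fin 2) ℤ := !![1, -2]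

lemma sol_iff (d : ℤ) (x : Fin 2 → ℕ) :
    Sol A0 ![d] x ↔ 1 ≤ x 0 ∧ 1 ≤ x 1 ∧ x 0 ≠ x 1 ∧ (x 0 : ℤ) - 2 * x 1 = d := by
  have e : A0 *ᵥ (fun j => (x j : ℤ)) = ![(x 0 : ℤ) - 2 * x 1] := by
    ext i
    fin_cases i
    simp [A0, mulVec, dotProduct, Fin.sum_univ_two]
    ring
  have i2 : Function.Injective x ↔ x 0 ≠ x 1 := by
    refine ⟨fun h => h.ne (by decide), fun h a b hab => ?_⟩
    fin_cases a <;> fin_cases b
    · rfl
    · exact (h hab).elim
    · exact (h hab.symm).elim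
    · rfl
  simp only [Sol, e, i2, Fin.forall_fin_two, and_assoc, vecCons_inj, and_true]

def c0 : Fin 2 → Fin 1 → ℤ := ![![-2], ![0]]

lemma few (m : ℕ) (d : ℤ) (hd : d = -2 ∨ d = 0) (i : Fin 2) :
    {x | Sol A0 ![d] x ∧ ∀ j, x j ≤ 2 ^ m ∧
      (⟨Nat.log 2 (x j) % 2, Nat.mod_lt _ two_pos⟩ : Fin 2) = i}.ncard ≤ m + 1 := by
  rw [← Finset.card_range (m + 1), ← Set.ncard_coe_finset]
  have key : ∀ x, Sol A0 ![d] x → Nat.log 2 (x 0) % 2 = Nat.log 2 (x 1) % 2 →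
      x 1 = 2 ^ Nat.log 2 (x 1) := by
    intro x hx h
    obtain ⟨h0, h1, -, h2⟩ := (sol_iff _ _).1 hx
    have a := Nat.pow_log_le_self 2 (show x 1 ≠ 0 by omega)
    have b := Nat.lt_pow_succ_log_self (b := 2) one_lt_two (x 1)
    by_contra hc
    have : Nat.log 2 (x 0) = Nat.log 2 (x 1) + 1 := by
      refine Nat.log_eq_of_pow_le_of_lt_pow ?_ ?_ <;> simp only [pow_succ] at * <;> omega
    omega
  refine Set.ncard_le_ncard_of_injOn (fun x => Nat.log 2 (x 1)) ?_ ?_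
  · rintro x ⟨-, h⟩
    have := Nat.log_mono_right (b := 2) (h 1).1
    rw [Nat.log_pow one_lt_two] at this
    simp only [Finset.coe_range, Set.mem_Iio]
    omega
  · rintro x ⟨hx, h⟩ y ⟨hy, h'⟩ e
    have a := key x hx (congrArg Fin.val ((h 0).2.trans (h 1).2.symm))
    have b := key y hy (congrArg Fin.val ((h' 0).2.trans (h' 1).2.symm))
    simp only at e
    rw [e, ← b] at a
    have p := ((sol_iff _ _).1 hx).2.2.2
    have q := ((sol_iff _ _).1 hy).2.2.2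
    ext j
    fin_cases j
    · simp only [Fin.zero_eta]; omega
    · exact a

theorem result : ∃ (r : ℕ) (l k : Fin r → ℕ) (A : ∀ i, Matrix (Fin (l i)) (Fin (k i)) ℤ)
    (c : ∀ i, Fin (l i) → ℤ), (∀ i, (A i).rank = l i) ∧ (∀ i, ∃ x, Sol (A i) (c i) x) ∧
    (∀ i, ∃ x, Sol (A i) 0 x) ∧
    (∀ χ : ℕ → Fin r, ∃ i x, Sol (A i) (c i) x ∧ ∀ j, χ (x j) = i) ∧
    ∀ ε : ℝ, 0 < ε → ∀ n₀ : ℕ, ∃ n, n₀ < n ∧ ∃ χ : ℕ → Fin r, ∀ i,
      ({x | Sol (A i) (c i) x ∧ ∀ j, x j ≤ n ∧ χ (x j) = i}.ncard : ℝ) <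
        ε * (n : ℝ) ^ (k i - l i) := by
  refine ⟨2, fun _ => 1, fun _ => 2, fun _ => A0, c0, fun _ => ?_, ?_, fun _ => ?_, ?_, ?_⟩
  · refine le_antisymm (by simpa using A0.rank_le_card_height) ?_
    have h := rank_mul_le_left A0 (!![1; 0] : Matrix (Fin 2) (Fin 1) ℤ)
    rw [show A0 * (!![1; 0] : Matrix (Fin 2) (Fin 1) ℤ) = 1 by decide, rank_one] at h
    simpa using h
  · rw [Fin.forall_fin_two]
    exact ⟨⟨![4, 3], (sol_iff _ _).2 (by decide)⟩, ⟨![2, 1], (sol_iff _ _).2 (by decide)⟩⟩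
  · exact ⟨![2, 1], by
      rw [show (0 : Fin 1 → ℤ) = ![0] by decide]; exact (sol_iff _ _).2 (by decide)⟩
  · intro χ
    by_contra hc
    push Not at hc
    have f : ∀ a b : ℕ, 1 ≤ a → a ≠ b → a + 2 = 2 * b → χ a = 0 → χ b = 1 := by
      intro a b h1 h2 h3 h4
      obtain ⟨j, hj⟩ := hc 0 ![a, b] ((sol_iff _ _).2 (by simp; omega))
      fin_cases j
      · exact (hj h4).elim
      · simp only [Fin.mk_one, cons_val_one, cons_val_fin_one] at hj; omega
    have g : ∀ a b : ℕ, 1 ≤ b → a = 2 * b → χ a = 1 → χ b = 0 := by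
      intro a b h1 h3 h4
      obtain ⟨j, hj⟩ := hc 1 ![a, b] ((sol_iff _ _).2 (by simp; omega))
      fin_cases j
      · exact (hj h4).elim
      · simp only [Fin.mk_one, cons_val_one, cons_val_fin_one] at hj; omega
    have := f 6 4 (by omega) (by omega) rfl
    have := f 4 3 (by omega) (by omega) rfl
    have := f 14 8 (by omega) (by omega) rfl
    have := f 12 7 (by omega) (by omega) rfl
    have := f 10 6 (by omega) (by omega) rfl
    have := f 8 5 (by omega) (by omega) rfl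
    have := g 6 3 (by omega) rfl
    have := g 8 4 (by omega) rfl
    have := g 14 7 (by omega) rfl
    have := g 12 6 (by omega) rfl
    have := g 10 5 (by omega) rfl
    omega
  · intro ε hε n₀
    have t : Tendsto (fun m : ℕ => ((m : ℝ) ^ 1 + (m : ℝ) ^ 0) / 2 ^ m) atTop (nhds 0) := by
      simpa [add_div] using (tendsto_pow_const_div_const_pow_of_one_lt 1 one_lt_two).add
        (tendsto_pow_const_div_const_pow_of_one_lt 0 one_lt_two)
    obtain ⟨m, h1, h2⟩ := ((t.eventually (gt_mem_nhds hε)).and (eventually_ge_atTop n₀)).exists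
    refine ⟨2 ^ m, h2.trans_lt Nat.lt_two_pow_self,
      fun v => ⟨Nat.log 2 v % 2, Nat.mod_lt _ two_pos⟩, fun i => ?_⟩
    rw [div_lt_iff₀ (by positivity), pow_one, pow_zero] at h1
    have h3 : ({x | Sol A0 (c0 i) x ∧ ∀ j, x j ≤ 2 ^ m ∧
      (⟨Nat.log 2 (x j) % 2, Nat.mod_lt _ two_pos⟩ : Fin 2) = i}.ncard : ℝ) ≤ m + 1 := by
      fin_cases i
      · exact_mod_cast few m (-2) (Or.inl rfl) _
      · exact_mod_cast few m 0 (Or.inr rfl) _
    refine h3.trans_lt (h1.trans_eq ?_)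
    norm_num

end Pool.Agent.Results.MP_9bc523_co.NoSupersat
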